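import Mathlib

/-!
# Fenchel's theorem in inner product spaces
-/

set_option autoImplicit false

namespace Pool.Agent.Run7.h12.FR

open Real Set Filter Topology InnerProductGeometry MeasureTheory
open scoped RealInnerProductSpace

variable {E : Type} [NormedAddCommGroup E] [InnerProductSpace ℝ E]

theorem angle_mul_cos_le {x y : E} (hx : ‖x‖ = 1) (hy : ‖y‖ = 1) :
    angle x y * cos (angle x y / 2) ≤ ‖x - y‖ := by
  set θ := angle x y with hθ
  have h0 : 0 ≤ θ := angle_nonneg x y
  have h1 : θ ≤ π := angle_le_pi x y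
  have hc : cos θ = ⟪x, y⟫ := by rw [hθ, cos_angle, hx, hy]; simp
  have hn : ‖x - y‖ ^ 2 = 2 - 2 * cos θ := by
    rw [@norm_sub_sq_real, hx, hy, hc]; ring
  have hs : ‖x - y‖ = 2 * sin (θ / 2) := by
    have hs0 : 0 ≤ sin (θ / 2) := sin_nonneg_of_nonneg_of_le_pi (by linarith) (by linarith)
    have : ‖x - y‖ ^ 2 = (2 * sin (θ / 2)) ^ 2 := by
      rw [hn, show cos θ = cos (2 * (θ / 2)) by congr 1; ring, cos_two_mul]
      have := sin_sq_add_cos_sq (θ / 2)
      nlinarith
    exact (sq_eq_sq₀ (norm_nonneg _) (by positivity)).1 this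
  rw [hs]
  rcases eq_or_lt_of_le h1 with h2 | h2
  · rw [h2, cos_pi_div_two, mul_zero, sin_pi_div_two]; norm_num
  · have hcp : 0 < cos (θ / 2) := cos_pos_of_mem_Ioo ⟨by linarith, by linarith⟩
    have ht : θ / 2 ≤ tan (θ / 2) := le_tan (by linarith) (by linarith)
    rw [tan_eq_sin_div_cos, le_div_iff₀ hcp] at ht
    linarith

/-- The angle between two points of a curve on the unit sphere is at most the length. -/
theorem angle_le {T T' : ℝ → E} {φ : ℝ → ℝ} (hT : ∀ t, HasDerivAt T (T' t) t)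
    (hn : ∀ t, ‖T t‖ = 1) (hφ : ∀ t, HasDerivAt φ (‖T' t‖) t) {a b : ℝ} (hab : a ≤ b) :
    angle (T a) (T b) ≤ φ b - φ a := by
  have hTc : Continuous T := continuous_iff_continuousAt.2 fun t => (hT t).continuousAt
  have hne : ∀ t, T t ≠ 0 := fun t h => by
    have := hn t; rw [h, norm_zero] at this; exact zero_ne_one this
  have hang : ∀ x y : ℝ, ContinuousAt (fun z => angle (T x) (T z)) y := by
    intro x y
    have h1 : ContinuousAt (fun p : E × E => angle p.1 p.2) (T x, T y) :=
      continuousAt_angle (hne x) (hne y)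
    have h2 : ContinuousAt (fun z : ℝ => ((T x, T z) : E × E)) y :=
      continuousAt_const.prodMk hTc.continuousAt
    exact ContinuousAt.comp (f := fun z : ℝ => ((T x, T z) : E × E)) h1 h2
  have key := image_le_of_liminf_slope_right_le_deriv_boundary
    (f := fun z => angle (T a) (T z)) (a := a) (b := b) (B := fun z => φ z - φ a)
    (B' := fun z => ‖T' z‖)
    (fun z _ => (hang a z).continuousWithinAt)
    (by simp [angle_self (hne a)])
    (fun z _ => ((hφ z).continuousAt.sub continuousAt_const).continuousWithinAt)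
    (fun z _ => ((hφ z).sub_const _).hasDerivWithinAt)
    ?_
  · exact key ⟨hab, le_rfl⟩
  · intro x _ r hr
    apply Filter.Eventually.frequently
    have h1 : Tendsto (fun z => ‖(z - x)⁻¹ • (T z - T x)‖) (𝓝[>] x) (𝓝 ‖T' x‖) := by
      have := (hT x).hasDerivWithinAt (s := Ioi x)
      rw [hasDerivWithinAt_iff_tendsto_slope' (by simp)] at this
      exact this.norm
    have h2 : Tendsto (fun z => cos (angle (T x) (T z) / 2)) (𝓝[>] x) (𝓝 1) := by
      have h3 : Tendsto (fun z => cos (angle (T x) (T z) / 2)) (𝓝 x)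
          (𝓝 (cos (angle (T x) (T x) / 2))) :=
        (Real.continuous_cos.tendsto _).comp ((hang x x).tendsto.div_const 2)
      rw [angle_self (hne x), zero_div, cos_zero] at h3
      exact h3.mono_left nhdsWithin_le_nhds
    have h4 : Tendsto (fun z => ‖(z - x)⁻¹ • (T z - T x)‖ / cos (angle (T x) (T z) / 2))
        (𝓝[>] x) (𝓝 (‖T' x‖ / 1)) := h1.div h2 one_ne_zero
    rw [div_one] at h4
    filter_upwards [h4.eventually (gt_mem_nhds hr), h2.eventually (lt_mem_nhds one_pos),
      self_mem_nhdsWithin] with z hz hz2 hz3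
    have hzx : 0 < z - x := sub_pos.2 hz3
    refine lt_of_le_of_lt ?_ hz
    rw [slope_def_field, div_le_div_iff₀ hzx hz2]
    have h5 : angle (T a) (T z) - angle (T a) (T x) ≤ angle (T x) (T z) := by
      have := InnerProductGeometry.angle_le_angle_add_angle (T a) (T x) (T z)
      linarith
    have h6 := angle_mul_cos_le (hn x) (hn z)
    rw [norm_smul, norm_inv, Real.norm_eq_abs, abs_of_pos hzx, norm_sub_rev (T z) (T x)]
    have h7 : (z - x)⁻¹ * ‖T x - T z‖ * (z - x) = ‖T x - T z‖ := by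
      field_simp
    rw [h7]
    exact (mul_le_mul_of_nonneg_right h5 hz2.le).trans h6

/-- **Fenchel's theorem**, for the tangent indicatrix. -/
theorem fenchel {T T' : ℝ → E} {w : ℝ → ℝ} {p : ℝ} (hp : 0 < p)
    (hT : ∀ t, HasDerivAt T (T' t) t) (hT' : Continuous T') (hn : ∀ t, ‖T t‖ = 1)
    (hper : T p = T 0) (hw : Continuous w) (hwp : ∀ t, 0 < w t)
    (hint : ∫ t in (0 : ℝ)..p, w t • T t = 0) [CompleteSpace E] :
    2 * π ≤ ∫ t in (0 : ℝ)..p, ‖T' t‖ := by
  by_contra hlt
  push Not at hlt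
  set L := ∫ t in (0 : ℝ)..p, ‖T' t‖ with hL
  have hTc : Continuous T := continuous_iff_continuousAt.2 fun t => (hT t).continuousAt
  set φ : ℝ → ℝ := fun t => ∫ s in (0 : ℝ)..t, ‖T' s‖ with hφd
  have hφ : ∀ t, HasDerivAt φ (‖T' t‖) t := fun t =>
    intervalIntegral.integral_hasDerivAt_right (hT'.norm.intervalIntegrable _ _)
      (hT'.norm.stronglyMeasurableAtFilter _ _) hT'.norm.continuousAt
  have hφc : Continuous φ := continuous_iff_continuousAt.2 fun t => (hφ t).continuousAt
  have hφ0 : φ 0 = 0 := by simp [hφd]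
  have hφp : φ p = L := rfl
  have hL0 : 0 ≤ L := intervalIntegral.integral_nonneg hp.le fun _ _ => norm_nonneg _
  obtain ⟨t₁, ⟨ht0, ht1⟩, htL⟩ : ∃ t ∈ Icc (0 : ℝ) p, φ t = L / 2 := by
    have := intermediate_value_Icc hp.le hφc.continuousOn
    exact this ⟨by rw [hφ0]; linarith, by rw [hφp]; linarith⟩
  have hne : ∀ t, T t ≠ 0 := fun t h => by
    have := hn t; rw [h, norm_zero] at this; exact zero_ne_one this
  have hsum : ∀ t ∈ Icc (0 : ℝ) p, angle (T t) (T 0) + angle (T t) (T t₁) ≤ L / 2 := by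
    intro t ht
    rcases le_total t t₁ with h | h
    · have h1 := angle_le hT hn hφ ht.1
      have h2 := angle_le hT hn hφ h
      rw [angle_comm] at h1
      rw [hφ0] at h1
      rw [htL] at h2
      linarith
    · have h1 := angle_le hT hn hφ h
      have h2 := angle_le hT hn hφ ht.2
      rw [angle_comm] at h1
      rw [hper, hφp] at h2
      rw [htL] at h1
      linarith
  have hpos : ∀ t ∈ Icc (0 : ℝ) p, 0 < ⟪T t, T 0 + T t₁⟫ := by
    intro t ht
    have h := hsum t ht
    have hα0 := angle_nonneg (T t) (T 0)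
    have hβ0 := angle_nonneg (T t) (T t₁)
    have hα : cos (angle (T t) (T 0)) = ⟪T t, T 0⟫ := by rw [cos_angle, hn, hn]; simp
    have hβ : cos (angle (T t) (T t₁)) = ⟪T t, T t₁⟫ := by rw [cos_angle, hn, hn]; simp
    rw [inner_add_right, ← hα, ← hβ]
    have h1 : angle (T t) (T 0) < π - angle (T t) (T t₁) := by
      have : L / 2 < π := by linarith
      linarith
    have h2 := Real.cos_lt_cos_of_nonneg_of_le_pi hα0 (by linarith) h1
    rw [cos_pi_sub] at h2
    linarith
  have hI : ∫ t in (0 : ℝ)..p, w t * ⟪T t, T 0 + T t₁⟫ = 0 := by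
    have h1 : ∀ t, w t * ⟪T t, T 0 + T t₁⟫ = ⟪T 0 + T t₁, w t • T t⟫ := by
      intro t
      rw [inner_smul_right, real_inner_comm]
    simp_rw [h1]
    have h2 : (∫ t in (0 : ℝ)..p, ⟪T 0 + T t₁, w t • T t⟫) =
        ⟪T 0 + T t₁, ∫ t in (0 : ℝ)..p, w t • T t⟫ := by
      have := ContinuousLinearMap.intervalIntegral_comp_comm (innerSL ℝ (T 0 + T t₁))
        ((hw.smul hTc).intervalIntegrable (μ := volume) 0 p)
      exact this
    rw [h2, hint, inner_zero_right]
  have hI' : 0 < ∫ t in (0 : ℝ)..p, w t * ⟪T t, T 0 + T t₁⟫ := by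
    refine intervalIntegral.intervalIntegral_pos_of_pos_on
      ((hw.mul (hTc.inner continuous_const)).intervalIntegrable _ _) (fun t ht => ?_) hp
    exact mul_pos (hwp t) (hpos t ⟨ht.1.le, ht.2.le⟩)
  exact hI'.ne' hI

end Pool.Agent.Run7.h12.FR
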