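import Mathlib
import Pool.Agent.Run7.h12.FR.Fenchel
import Pool.Agent.Run7.h773.Loop

/-!
# The Frenet frame of a nondegenerate closed curve has length greater than `2π`
-/

set_option autoImplicit false

namespace Pool.Agent.Run7.h12.FR

open Real Set MeasureTheory InnerProductSpace
open scoped RealInnerProductSpace ContDiff
open Run7.h773

/-- The Frenet frame `e_1, ..., e_n` (indexed here from `0`) of a closed curve: the orthonormal
system obtained by Gram-Schmidt from the derivatives `γ', γ'', ..., γ^(n)`. -/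
noncomputable def frenet {n : ℕ} (γ : SmoothLoop n) (i : Fin n) (t : ℝ) :
    EuclideanSpace ℝ (Fin n) :=
  gramSchmidtNormed ℝ (fun k : Fin n => iteratedDeriv ((k : ℕ) + 1) γ.1 t) i

/-- The curvature `κ_{j+1} = ⟪d e_{j+1} / ds, e_{j+2}⟫` for `j + 1 < n`, where `s` is the arc
length, that is `d/ds = |γ'|⁻¹ d/dt`. -/
noncomputable def curvature {n : ℕ} (γ : SmoothLoop n) (j : ℕ) (t : ℝ) : ℝ :=
  if h : j + 1 < n then
    ⟪deriv (frenet γ ⟨j, by omega⟩) t, frenet γ ⟨j + 1, h⟩ t⟫ / ‖deriv γ.1 t‖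
  else 0

/-- The length of the Frenet frame, `∫ (κ_1² + ... + κ_{n-1}²)^{1/2} ds` with `ds = |γ'| dt`. -/
noncomputable def frameLength {n : ℕ} (γ : SmoothLoop n) : ℝ :=
  ∫ t in (0 : ℝ)..(2 * π), √(∑ j ∈ Finset.range (n - 1), curvature γ j t ^ 2) * ‖deriv γ.1 t‖

section General

variable {E : Type} [NormedAddCommGroup E] [InnerProductSpace ℝ E]

theorem gs_eq {n : ℕ} (f : Fin n → E) (i : Fin n) :
    gramSchmidt ℝ f i = f i - ∑ j ∈ Finset.Iio i,
      (⟪gramSchmidt ℝ f j, f i⟫ / ‖gramSchmidt ℝ f j‖ ^ 2) • gramSchmidt ℝ f j := by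
  have := gramSchmidt_def'' ℝ f i
  rw [eq_sub_iff_add_eq]
  exact this.symm

theorem contDiff_gramSchmidt {n : ℕ} {f : Fin n → ℝ → E} (hf : ∀ k, ContDiff ℝ ∞ (f k))
    (hli : ∀ t, LinearIndependent ℝ (fun k => f k t)) (i : Fin n) :
    ContDiff ℝ ∞ (fun t => gramSchmidt ℝ (fun k => f k t) i) := by
  induction i using WellFoundedLT.induction with
  | ind i ih =>
    have h : (fun t => gramSchmidt ℝ (fun k => f k t) i) = fun t => f i t - ∑ j ∈ Finset.Iio i,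
        (⟪gramSchmidt ℝ (fun k => f k t) j, f i t⟫ / ‖gramSchmidt ℝ (fun k => f k t) j‖ ^ 2) •
          gramSchmidt ℝ (fun k => f k t) j := by
      funext t
      exact gs_eq _ i
    rw [h]
    refine (hf i).sub (ContDiff.sum fun j hj => ?_)
    have hj' := ih j (Finset.mem_Iio.1 hj)
    refine ContDiff.smul (ContDiff.div (hj'.inner ℝ (hf i)) (hj'.norm_sq ℝ) fun t => ?_) hj'
    exact pow_ne_zero 2 (norm_ne_zero_iff.2 (gramSchmidt_ne_zero j (hli t)))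

theorem contDiff_gramSchmidtNormed {n : ℕ} {f : Fin n → ℝ → E} (hf : ∀ k, ContDiff ℝ ∞ (f k))
    (hli : ∀ t, LinearIndependent ℝ (fun k => f k t)) (i : Fin n) :
    ContDiff ℝ ∞ (fun t => gramSchmidtNormed ℝ (fun k => f k t) i) := by
  have h := contDiff_gramSchmidt hf hli i
  have hne : ∀ t, gramSchmidt ℝ (fun k => f k t) i ≠ 0 := fun t => gramSchmidt_ne_zero i (hli t)
  have h2 : ContDiff ℝ ∞ (fun t => ‖gramSchmidt ℝ (fun k => f k t) i‖) := h.norm ℝ hne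
  exact (h2.inv fun t => norm_ne_zero_iff.2 (hne t)).smul h

theorem gs_zero {n : ℕ} (f : Fin n → E) (h : 0 < n) : gramSchmidt ℝ f ⟨0, h⟩ = f ⟨0, h⟩ := by
  rw [gs_eq]
  have : Finset.Iio (⟨0, h⟩ : Fin n) = ∅ := by
    ext x
    simp [Fin.lt_def]
  rw [this]
  simp

/-- lower derivatives are orthogonal to higher frame vectors -/
theorem inner_lower {n : ℕ} (f : Fin n → E) {i j : Fin n} (hij : i < j) :
    ⟪f i, gramSchmidtNormed ℝ f j⟫ = 0 := by
  unfold gramSchmidtNormed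
  rw [inner_smul_right, real_inner_comm, gramSchmidt_inv_triangular ℝ f hij, mul_zero]

/-- the diagonal coefficient is nonzero -/
theorem inner_diag {n : ℕ} (f : Fin n → E) (hli : LinearIndependent ℝ f) (j : Fin n) :
    ⟪f j, gramSchmidtNormed ℝ f j⟫ ≠ 0 := by
  have hne := gramSchmidt_ne_zero (𝕜 := ℝ) j hli
  have h1 : ⟪f j, gramSchmidt ℝ f j⟫ = ‖gramSchmidt ℝ f j‖ ^ 2 := by
    have h2 := gramSchmidt_def'' ℝ f j
    rw [h2, inner_add_left, sum_inner, Finset.sum_eq_zero]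
    · simp
    · intro i hi
      rw [inner_smul_left, gramSchmidt_orthogonal ℝ f (Finset.mem_Iio.1 hi).ne, mul_zero]
  unfold gramSchmidtNormed
  rw [inner_smul_right, h1]
  have : ‖gramSchmidt ℝ f j‖ ≠ 0 := norm_ne_zero_iff.2 hne
  have h3 : ((‖gramSchmidt ℝ f j‖ : ℝ) : ℝ) ≠ 0 := this
  exact mul_ne_zero (inv_ne_zero h3) (pow_ne_zero 2 this)

theorem inner_deriv_unit {e : ℝ → E} {e' : E} {t : ℝ} (he : HasDerivAt e e' t)
    (hn : ∀ s, ‖e s‖ = 1) : ⟪e', e t⟫ = 0 := by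
  have h1 := he.inner ℝ he
  have h2 : (fun s => ⟪e s, e s⟫) = fun _ => (1 : ℝ) := by
    funext s
    rw [real_inner_self_eq_norm_sq, hn, one_pow]
  rw [h2] at h1
  have h3 := h1.unique (hasDerivAt_const t (1 : ℝ))
  rw [real_inner_comm e'] at h3
  linarith

theorem norm_of_two {a e₀ e₁ : E} {x y : ℝ} (ha : a = x • e₀ + y • e₁) (h0 : ‖e₀‖ = 1)
    (h1 : ‖e₁‖ = 1) (h01 : ⟪e₀, e₁⟫ = 0) (hx : ⟪a, e₀⟫ = 0) : ‖a‖ = |⟪a, e₁⟫| := by
  have h2 : x = 0 := by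
    rw [ha, inner_add_left, inner_smul_left, inner_smul_left, real_inner_comm e₀ e₁, h01,
      real_inner_self_eq_norm_sq, h0] at hx
    simpa using hx
  rw [ha, h2, zero_smul, zero_add, norm_smul, h1, inner_smul_left, real_inner_self_eq_norm_sq, h1]
  simp

end General

section Curve

variable {n : ℕ} {γ : SmoothLoop n}

theorem contDiff_it (γ : SmoothLoop n) (k : ℕ) : ContDiff ℝ ∞ (iteratedDeriv k γ.1) := by
  rw [iteratedDeriv_eq_iterate]
  exact γ.2.1.iterate_deriv k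

theorem hasDerivAt_it (γ : SmoothLoop n) (k : ℕ) (t : ℝ) :
    HasDerivAt (iteratedDeriv k γ.1) (iteratedDeriv (k + 1) γ.1 t) t := by
  rw [iteratedDeriv_succ]
  exact (((contDiff_it γ k).differentiable (by simp)) t).hasDerivAt

theorem contDiff_frenet (hγ : Nondegenerate γ) (i : Fin n) : ContDiff ℝ ∞ (frenet γ i) :=
  contDiff_gramSchmidtNormed (f := fun (k : Fin n) t => iteratedDeriv ((k : ℕ) + 1) γ.1 t)
    (fun _ => contDiff_it γ _) hγ i

theorem hasDerivAt_frenet (hγ : Nondegenerate γ) (i : Fin n) (t : ℝ) :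
    HasDerivAt (frenet γ i) (deriv (frenet γ i) t) t :=
  (((contDiff_frenet hγ i).differentiable (by simp)) t).hasDerivAt

theorem continuous_deriv_frenet (hγ : Nondegenerate γ) (i : Fin n) :
    Continuous (deriv (frenet γ i)) :=
  (contDiff_frenet hγ i).continuous_deriv (by simp)

theorem orthonormal_frenet (hγ : Nondegenerate γ) (t : ℝ) :
    Orthonormal ℝ (fun i => frenet γ i t) :=
  gramSchmidtNormed_orthonormal (hγ t)

theorem deriv_ne_zero (hγ : Nondegenerate γ) (hn : 0 < n) (t : ℝ) : deriv γ.1 t ≠ 0 := by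
  have := (hγ t).ne_zero ⟨0, hn⟩
  simpa [iteratedDeriv_one] using this

theorem frenet_zero (hn : 0 < n) (t : ℝ) :
    frenet γ ⟨0, hn⟩ t = ‖deriv γ.1 t‖⁻¹ • deriv γ.1 t := by
  unfold frenet gramSchmidtNormed
  rw [gs_zero]
  simp [iteratedDeriv_one]

theorem periodic_deriv (γ : SmoothLoop n) : deriv γ.1 (2 * π) = deriv γ.1 0 := by
  have h : (fun t => γ.1 (t + 2 * π)) = γ.1 := funext γ.2.2
  have h1 : deriv (fun t => γ.1 (t + 2 * π)) 0 = deriv γ.1 (0 + 2 * π) :=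
    deriv_comp_add_const (f := γ.1) (2 * π) 0
  rw [h, zero_add] at h1
  exact h1.symm

theorem integral_tangent (hγ : Nondegenerate γ) (hn : 0 < n) :
    ∫ t in (0 : ℝ)..(2 * π), ‖deriv γ.1 t‖ • frenet γ ⟨0, hn⟩ t = 0 := by
  have h1 : ∀ t, ‖deriv γ.1 t‖ • frenet γ ⟨0, hn⟩ t = deriv γ.1 t := by
    intro t
    rw [frenet_zero, smul_smul, mul_inv_cancel₀ (norm_ne_zero_iff.2 (deriv_ne_zero hγ hn t)),
      one_smul]
  simp_rw [h1]
  rw [intervalIntegral.integral_deriv_eq_sub]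
  · have := γ.2.2 0
    rw [zero_add] at this
    rw [this, sub_self]
  · intro t _
    exact (γ.2.1.differentiable (by simp)) t
  · exact (γ.2.1.continuous_deriv (by simp)).intervalIntegrable _ _

/-- The derivative of the unit tangent is a combination of the first two frame vectors. -/
theorem norm_deriv_tangent (hγ : Nondegenerate γ) (hn : 1 < n) (t : ℝ) :
    ‖deriv (frenet γ ⟨0, by omega⟩) t‖ =
      |⟪deriv (frenet γ ⟨0, by omega⟩) t, frenet γ ⟨1, hn⟩ t⟫| := by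
  have hn0 : 0 < n := by omega
  have hO := orthonormal_frenet hγ t
  have hd := hasDerivAt_frenet hγ ⟨0, hn0⟩ t
  -- the derivative as a combination of `γ'` and `γ''`
  have ha : ContDiff ℝ ∞ (fun s => ‖deriv γ.1 s‖⁻¹) := by
    have h1 : ContDiff ℝ ∞ (deriv γ.1) := by
      have := contDiff_it γ 1
      rwa [iteratedDeriv_one] at this
    exact (h1.norm ℝ (deriv_ne_zero hγ hn0)).inv fun s =>
      norm_ne_zero_iff.2 (deriv_ne_zero hγ hn0 s)
  have ha' := ((ha.differentiable (by simp)) t).hasDerivAt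
  have h2 := ha'.smul (hasDerivAt_it γ 1 t)
  have h3 : frenet γ ⟨0, hn0⟩ = (fun s => ‖deriv γ.1 s‖⁻¹) • iteratedDeriv 1 γ.1 := by
    funext s
    rw [frenet_zero, iteratedDeriv_one]
    rfl
  have h4 : deriv (frenet γ ⟨0, hn0⟩) t = ‖deriv γ.1 t‖⁻¹ • iteratedDeriv 2 γ.1 t +
      deriv (fun s => ‖deriv γ.1 s‖⁻¹) t • iteratedDeriv 1 γ.1 t := by
    rw [h3]
    exact h2.deriv
  -- the two derivatives in the frame
  set f : Fin n → EuclideanSpace ℝ (Fin n) := fun k => iteratedDeriv ((k : ℕ) + 1) γ.1 t with hf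
  have hG0 : gramSchmidt ℝ f ⟨0, hn0⟩ = ‖gramSchmidt ℝ f ⟨0, hn0⟩‖ • frenet γ ⟨0, hn0⟩ t := by
    have : gramSchmidt ℝ f ⟨0, hn0⟩ ≠ 0 := gramSchmidt_ne_zero _ (hγ t)
    change _ = ‖gramSchmidt ℝ f ⟨0, hn0⟩‖ • (‖gramSchmidt ℝ f ⟨0, hn0⟩‖⁻¹ • gramSchmidt ℝ f ⟨0, hn0⟩)
    rw [smul_smul, mul_inv_cancel₀ (norm_ne_zero_iff.2 this), one_smul]
  have hG1 : gramSchmidt ℝ f ⟨1, hn⟩ = ‖gramSchmidt ℝ f ⟨1, hn⟩‖ • frenet γ ⟨1, hn⟩ t := by
    have : gramSchmidt ℝ f ⟨1, hn⟩ ≠ 0 := gramSchmidt_ne_zero _ (hγ t)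
    change _ = ‖gramSchmidt ℝ f ⟨1, hn⟩‖ • (‖gramSchmidt ℝ f ⟨1, hn⟩‖⁻¹ • gramSchmidt ℝ f ⟨1, hn⟩)
    rw [smul_smul, mul_inv_cancel₀ (norm_ne_zero_iff.2 this), one_smul]
  have hf0 : ∃ x : ℝ, iteratedDeriv 1 γ.1 t = x • frenet γ ⟨0, hn0⟩ t := by
    refine ⟨‖gramSchmidt ℝ f ⟨0, hn0⟩‖, ?_⟩
    rw [← hG0, gs_zero]
  have hf1 : ∃ x y : ℝ, iteratedDeriv 2 γ.1 t =
      x • frenet γ ⟨0, hn0⟩ t + y • frenet γ ⟨1, hn⟩ t := by
    have h5 := gramSchmidt_def'' ℝ f ⟨1, hn⟩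
    have h6 : Finset.Iio (⟨1, hn⟩ : Fin n) = {⟨0, hn0⟩} := by
      ext x
      simp only [Finset.mem_Iio, Finset.mem_singleton, Fin.lt_def, Fin.ext_iff]
      omega
    rw [h6, Finset.sum_singleton, hG1] at h5
    refine ⟨⟪gramSchmidt ℝ f ⟨0, hn0⟩, f ⟨1, hn⟩⟫ / ‖gramSchmidt ℝ f ⟨0, hn0⟩‖ ^ 2 *
      ‖gramSchmidt ℝ f ⟨0, hn0⟩‖, ‖gramSchmidt ℝ f ⟨1, hn⟩‖, ?_⟩
    rw [mul_smul, ← hG0, add_comm]
    exact h5
  obtain ⟨x, hx⟩ := hf0
  obtain ⟨y, z, hyz⟩ := hf1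
  have h7 : deriv (frenet γ ⟨0, hn0⟩) t =
      (‖deriv γ.1 t‖⁻¹ * y + deriv (fun s => ‖deriv γ.1 s‖⁻¹) t * x) • frenet γ ⟨0, hn0⟩ t +
        (‖deriv γ.1 t‖⁻¹ * z) • frenet γ ⟨1, hn⟩ t := by
    rw [h4, hx, hyz]
    module
  refine norm_of_two h7 (hO.1 _) (hO.1 _) (hO.2 (by simp [Fin.ext_iff])) ?_
  exact inner_deriv_unit hd fun s => (orthonormal_frenet hγ s).1 _

/-- The second curvature does not vanish. -/
theorem second_ne_zero (hγ : Nondegenerate γ) (hn : 2 < n) (t : ℝ) :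
    ⟪deriv (frenet γ ⟨1, by omega⟩) t, frenet γ ⟨2, hn⟩ t⟫ ≠ 0 := by
  have hn0 : 0 < n := by omega
  have hn1 : 1 < n := by omega
  have d1 := hasDerivAt_frenet hγ ⟨1, hn1⟩ t
  have d2 := hasDerivAt_frenet hγ ⟨2, hn⟩ t
  -- `⟪γ', e_3⟫ = 0` and `⟪γ'', e_3⟫ = 0` for all parameters
  have z0 : ∀ s, ⟪iteratedDeriv 1 γ.1 s, frenet γ ⟨2, hn⟩ s⟫ = 0 := fun s =>
    inner_lower (fun k : Fin n => iteratedDeriv ((k : ℕ) + 1) γ.1 s)
      (i := ⟨0, hn0⟩) (j := ⟨2, hn⟩) (by simp [Fin.lt_def])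
  have z1 : ∀ s, ⟪iteratedDeriv 2 γ.1 s, frenet γ ⟨2, hn⟩ s⟫ = 0 := fun s =>
    inner_lower (fun k : Fin n => iteratedDeriv ((k : ℕ) + 1) γ.1 s)
      (i := ⟨1, hn1⟩) (j := ⟨2, hn⟩) (by simp [Fin.lt_def])
  have z2 : ⟪iteratedDeriv 3 γ.1 t, frenet γ ⟨2, hn⟩ t⟫ ≠ 0 :=
    inner_diag (fun k : Fin n => iteratedDeriv ((k : ℕ) + 1) γ.1 t) (hγ t) ⟨2, hn⟩
  have y0 : ⟪iteratedDeriv 1 γ.1 t, deriv (frenet γ ⟨2, hn⟩) t⟫ = 0 := by
    have h := (hasDerivAt_it γ 1 t).inner ℝ d2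
    rw [show (fun s => ⟪iteratedDeriv 1 γ.1 s, frenet γ ⟨2, hn⟩ s⟫) = fun _ => (0 : ℝ) from
      funext z0] at h
    have h' := h.unique (hasDerivAt_const t (0 : ℝ))
    have := z1 t
    linarith
  have y1 : ⟪iteratedDeriv 2 γ.1 t, deriv (frenet γ ⟨2, hn⟩) t⟫ ≠ 0 := by
    have h := (hasDerivAt_it γ 2 t).inner ℝ d2
    rw [show (fun s => ⟪iteratedDeriv 2 γ.1 s, frenet γ ⟨2, hn⟩ s⟫) = fun _ => (0 : ℝ) from
      funext z1] at h
    have h' := h.unique (hasDerivAt_const t (0 : ℝ))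
    intro h0
    apply z2
    linarith
  have y2 : ⟪deriv (frenet γ ⟨1, hn1⟩) t, frenet γ ⟨2, hn⟩ t⟫ =
      -⟪frenet γ ⟨1, hn1⟩ t, deriv (frenet γ ⟨2, hn⟩) t⟫ := by
    have h := d1.inner ℝ d2
    rw [show (fun s => ⟪frenet γ ⟨1, hn1⟩ s, frenet γ ⟨2, hn⟩ s⟫) = fun _ => (0 : ℝ) from
      funext fun s => (orthonormal_frenet hγ s).2 (by simp [Fin.ext_iff])] at h
    have h' := h.unique (hasDerivAt_const t (0 : ℝ))
    linarith
  -- `e_2` in terms of `γ''` and `γ'`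
  have hex : ∃ x y : ℝ, x ≠ 0 ∧ frenet γ ⟨1, hn1⟩ t =
      x • iteratedDeriv 2 γ.1 t + y • iteratedDeriv 1 γ.1 t := by
    have h5 := gs_eq (fun k : Fin n => iteratedDeriv ((k : ℕ) + 1) γ.1 t) ⟨1, hn1⟩
    have h6 : Finset.Iio (⟨1, hn1⟩ : Fin n) = {⟨0, hn0⟩} := by
      ext x
      simp only [Finset.mem_Iio, Finset.mem_singleton, Fin.lt_def, Fin.ext_iff]
      omega
    rw [h6, Finset.sum_singleton, gs_zero] at h5
    have hne : gramSchmidt ℝ (fun k : Fin n => iteratedDeriv ((k : ℕ) + 1) γ.1 t) ⟨1, hn1⟩ ≠ 0 :=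
      gramSchmidt_ne_zero _ (hγ t)
    generalize hG : gramSchmidt ℝ (fun k : Fin n => iteratedDeriv ((k : ℕ) + 1) γ.1 t)
      ⟨1, hn1⟩ = G at h5 hne
    have h7 : frenet γ ⟨1, hn1⟩ t = ‖G‖⁻¹ • G := by
      unfold frenet gramSchmidtNormed
      rw [hG]
      rfl
    refine ⟨‖G‖⁻¹, ?_, inv_ne_zero (norm_ne_zero_iff.2 hne), ?_⟩
    rotate_left
    · rw [h7]
      nth_rewrite 2 [h5]
      rw [smul_sub, smul_smul, sub_eq_add_neg, ← neg_smul]
  obtain ⟨x, y, hx, hxy⟩ := hex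
  rw [y2, hxy, inner_add_left, inner_smul_left, inner_smul_left, y0, mul_zero, add_zero]
  simp only [conj_trivial]
  exact neg_ne_zero.2 (mul_ne_zero hx y1)

theorem curvature_zero_mul (hγ : Nondegenerate γ) (hn : 1 < n) (t : ℝ) :
    |curvature γ 0 t| * ‖deriv γ.1 t‖ = ‖deriv (frenet γ ⟨0, by omega⟩) t‖ := by
  have hv : ‖deriv γ.1 t‖ ≠ 0 := norm_ne_zero_iff.2 (deriv_ne_zero hγ (by omega) t)
  rw [norm_deriv_tangent hγ hn]
  unfold curvature
  rw [dif_pos (by omega : 0 + 1 < n), abs_div, abs_norm, div_mul_cancel₀ _ hv]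

theorem curvature_one_ne (hγ : Nondegenerate γ) (hn : 2 < n) (t : ℝ) :
    curvature γ 1 t ≠ 0 := by
  have hv : ‖deriv γ.1 t‖ ≠ 0 := norm_ne_zero_iff.2 (deriv_ne_zero hγ (by omega) t)
  unfold curvature
  rw [dif_pos (by omega : 1 + 1 < n)]
  exact div_ne_zero (second_ne_zero hγ hn t) hv

theorem continuous_curvature (hγ : Nondegenerate γ) (j : ℕ) : Continuous (curvature γ j) := by
  by_cases h : j + 1 < n
  · have hv : ∀ t, ‖deriv γ.1 t‖ ≠ 0 := fun t =>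
      norm_ne_zero_iff.2 (deriv_ne_zero hγ (by omega) t)
    have : curvature γ j = fun t =>
        ⟪deriv (frenet γ ⟨j, by omega⟩) t, frenet γ ⟨j + 1, h⟩ t⟫ / ‖deriv γ.1 t‖ := by
      funext t
      unfold curvature
      rw [dif_pos h]
    rw [this]
    exact ((continuous_deriv_frenet hγ _).inner (contDiff_frenet hγ _).continuous).div
      (γ.2.1.continuous_deriv (by simp)).norm hv
  · have : curvature γ j = fun _ => 0 := by
      funext t
      unfold curvature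
      rw [dif_neg h]
    rw [this]
    exact continuous_const

theorem two_pi_lt_frameLength (hγ : Nondegenerate γ) (hn : 3 ≤ n) : 2 * π < frameLength γ := by
  have hn0 : 0 < n := by omega
  have hn1 : 1 < n := by omega
  have hn2 : 2 < n := by omega
  have hp : (0 : ℝ) < 2 * π := by positivity
  have hF := fenchel (T := frenet γ ⟨0, hn0⟩) (T' := deriv (frenet γ ⟨0, hn0⟩))
    (w := fun t => ‖deriv γ.1 t‖) (p := 2 * π) hp (hasDerivAt_frenet hγ _)
    (continuous_deriv_frenet hγ _) (fun t => (orthonormal_frenet hγ t).1 _)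
    (by rw [frenet_zero, frenet_zero, periodic_deriv])
    (γ.2.1.continuous_deriv (by simp)).norm
    (fun t => norm_pos_iff.2 (deriv_ne_zero hγ hn0 t)) (integral_tangent hγ hn0)
  have hlt : ∀ t, ‖deriv (frenet γ ⟨0, hn0⟩) t‖ <
      √(∑ j ∈ Finset.range (n - 1), curvature γ j t ^ 2) * ‖deriv γ.1 t‖ := by
    intro t
    rw [← curvature_zero_mul hγ hn1]
    refine mul_lt_mul_of_pos_right ?_ (norm_pos_iff.2 (deriv_ne_zero hγ hn0 t))
    rw [← Real.sqrt_sq_eq_abs]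
    apply Real.sqrt_lt_sqrt (sq_nonneg _)
    have hsub : ({0, 1} : Finset ℕ) ⊆ Finset.range (n - 1) := by
      intro x hx
      simp only [Finset.mem_insert, Finset.mem_singleton] at hx
      rw [Finset.mem_range]
      omega
    have h1 := Finset.sum_le_sum_of_subset_of_nonneg (f := fun j => curvature γ j t ^ 2) hsub
      (fun _ _ _ => sq_nonneg _)
    rw [Finset.sum_pair (by norm_num)] at h1
    have h2 : 0 < curvature γ 1 t ^ 2 := by
      have := curvature_one_ne hγ hn2 t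
      positivity
    linarith
  refine hF.trans_lt ?_
  unfold frameLength
  refine intervalIntegral.integral_lt_integral_of_continuousOn_of_le_of_exists_lt hp
    (continuous_deriv_frenet hγ _).norm.continuousOn ?_ (fun t _ => (hlt t).le)
    ⟨0, ⟨le_rfl, hp.le⟩, hlt 0⟩
  refine Continuous.continuousOn ?_
  refine Continuous.mul ?_ (γ.2.1.continuous_deriv (by simp)).norm
  exact Real.continuous_sqrt.comp
    (continuous_finsetSum _ fun j _ => (continuous_curvature hγ j).pow 2)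

end Curve

end Pool.Agent.Run7.h12.FR
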