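import Mathlib
import Pool.Agent.Run7.h12.FR.Frame

/-!
# The structure equations of the Frenet frame

For a nondegenerate closed curve the frame and the curvatures of
`Pool.Agent.Run7.h12.FR.Frame` satisfy `e_i' = κ_i e_{i+1} - κ_{i-1} e_{i-1}` (in arc length) and
`κ_1, ..., κ_{n-1} > 0`.
-/

set_option autoImplicit false

namespace Pool.Agent.Run7.h12.FR

open Real Set MeasureTheory InnerProductSpace
open scoped RealInnerProductSpace ContDiff
open Run7.h773

variable {n : ℕ} {γ : SmoothLoop n}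

theorem anti (hγ : Nondegenerate γ) (i j : Fin n) (t : ℝ) :
    ⟪deriv (frenet γ i) t, frenet γ j t⟫ = -⟪frenet γ i t, deriv (frenet γ j) t⟫ := by
  have h := (hasDerivAt_frenet hγ i t).inner ℝ (hasDerivAt_frenet hγ j t)
  have hc : (fun s => ⟪frenet γ i s, frenet γ j s⟫) = fun _ => if i = j then (1 : ℝ) else 0 := by
    funext s
    exact (orthonormal_iff_ite.1 (orthonormal_frenet hγ s)) i j
  rw [hc] at h
  have h' := h.unique (hasDerivAt_const t _)
  linarith

theorem lower_deriv (hγ : Nondegenerate γ) {k : ℕ} {j : Fin n} (hk : k < (j : ℕ)) (t : ℝ) :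
    ⟪iteratedDeriv (k + 1) γ.1 t, deriv (frenet γ j) t⟫ =
      -⟪iteratedDeriv (k + 1 + 1) γ.1 t, frenet γ j t⟫ := by
  have h := (hasDerivAt_it γ (k + 1) t).inner ℝ (hasDerivAt_frenet hγ j t)
  have hc : (fun s => ⟪iteratedDeriv (k + 1) γ.1 s, frenet γ j s⟫) = fun _ => (0 : ℝ) := by
    funext s
    exact inner_lower (fun k : Fin n => iteratedDeriv ((k : ℕ) + 1) γ.1 s)
      (i := ⟨k, hk.trans j.2⟩) (j := j) (by simpa [Fin.lt_def] using hk)
  rw [hc] at h
  have h' := h.unique (hasDerivAt_const t _)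
  linarith

theorem lower_deriv_zero (hγ : Nondegenerate γ) {k : ℕ} {j : Fin n} (hk : k + 1 < (j : ℕ))
    (t : ℝ) : ⟪iteratedDeriv (k + 1) γ.1 t, deriv (frenet γ j) t⟫ = 0 := by
  rw [lower_deriv hγ (by omega)]
  have h := inner_lower (fun k : Fin n => iteratedDeriv ((k : ℕ) + 1) γ.1 t)
    (i := ⟨k + 1, hk.trans j.2⟩) (j := j) (by simpa [Fin.lt_def] using hk)
  exact neg_eq_zero.2 h

theorem gs_lower_zero (hγ : Nondegenerate γ) {i j : Fin n} (hij : (i : ℕ) + 1 < (j : ℕ))
    (t : ℝ) :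
    ⟪gramSchmidt ℝ (fun k : Fin n => iteratedDeriv ((k : ℕ) + 1) γ.1 t) i,
      deriv (frenet γ j) t⟫ = 0 := by
  set f : Fin n → EuclideanSpace ℝ (Fin n) := fun k => iteratedDeriv ((k : ℕ) + 1) γ.1 t with hf
  have h1 : gramSchmidt ℝ f i ∈ Submodule.span ℝ (f '' Set.Iic i) :=
    gramSchmidt_mem_span ℝ f le_rfl
  have h2 : Submodule.span ℝ (f '' Set.Iic i) ≤ (ℝ ∙ deriv (frenet γ j) t)ᗮ := by
    rw [Submodule.span_le]
    rintro _ ⟨k, hk, rfl⟩
    rw [SetLike.mem_coe, Submodule.mem_orthogonal_singleton_iff_inner_left]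
    have hk' : (k : ℕ) ≤ (i : ℕ) := hk
    exact lower_deriv_zero hγ (by omega) t
  exact (Submodule.mem_orthogonal_singleton_iff_inner_left).1 (h2 h1)

theorem frenet_lower_zero (hγ : Nondegenerate γ) {i j : Fin n} (hij : (i : ℕ) + 1 < (j : ℕ))
    (t : ℝ) : ⟪frenet γ i t, deriv (frenet γ j) t⟫ = 0 := by
  unfold frenet gramSchmidtNormed
  rw [inner_smul_left]
  have := gs_lower_zero hγ hij t
  unfold frenet gramSchmidtNormed at this
  rw [this, mul_zero]

theorem inner_diag_pos {E : Type} [NormedAddCommGroup E] [InnerProductSpace ℝ E] {n : ℕ}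
    (f : Fin n → E) (hli : LinearIndependent ℝ f) (j : Fin n) :
    0 < ⟪f j, gramSchmidtNormed ℝ f j⟫ := by
  have hne := gramSchmidt_ne_zero (𝕜 := ℝ) j hli
  have h1 : ⟪f j, gramSchmidt ℝ f j⟫ = ‖gramSchmidt ℝ f j‖ ^ 2 := by
    have h2 := gramSchmidt_def'' ℝ f j
    rw [h2, inner_add_left, sum_inner, Finset.sum_eq_zero]
    · simp
    · intro i hi
      rw [inner_smul_left, gramSchmidt_orthogonal ℝ f (Finset.mem_Iio.1 hi).ne, mul_zero]
  unfold gramSchmidtNormed
  rw [inner_smul_right, h1]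
  have : 0 < ‖gramSchmidt ℝ f j‖ := norm_pos_iff.2 hne
  have h3 : 0 < ((‖gramSchmidt ℝ f j‖ : ℝ) : ℝ) := this
  exact mul_pos (inv_pos.2 h3) (pow_pos this 2)

/-- All curvatures `κ_1, ..., κ_{n-1}` are positive. -/
theorem curvature_pos (hγ : Nondegenerate γ) {j : ℕ} (hj : j + 1 < n) (t : ℝ) :
    0 < curvature γ j t := by
  have hj0 : j < n := by omega
  have hv : 0 < ‖deriv γ.1 t‖ := norm_pos_iff.2 (deriv_ne_zero hγ (by omega) t)
  unfold curvature
  rw [dif_pos hj]
  refine div_pos ?_ hv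
  rw [anti hγ]
  set f : Fin n → EuclideanSpace ℝ (Fin n) := fun k => iteratedDeriv ((k : ℕ) + 1) γ.1 t with hf
  have hne : 0 < ‖gramSchmidt ℝ f ⟨j, hj0⟩‖ := norm_pos_iff.2 (gramSchmidt_ne_zero _ (hγ t))
  have h1 : ⟪gramSchmidt ℝ f ⟨j, hj0⟩, deriv (frenet γ ⟨j + 1, hj⟩) t⟫ =
      -⟪f ⟨j + 1, hj⟩, frenet γ ⟨j + 1, hj⟩ t⟫ := by
    rw [gs_eq, inner_sub_left, sum_inner, Finset.sum_eq_zero, sub_zero]
    · exact lower_deriv hγ (by simp) t
    · intro i hi
      rw [inner_smul_left, gs_lower_zero hγ _ t, mul_zero]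
      have := Finset.mem_Iio.1 hi
      rw [Fin.lt_def] at this
      simp only at this ⊢
      omega
  have h2 : frenet γ ⟨j, hj0⟩ t =
      ‖gramSchmidt ℝ f ⟨j, hj0⟩‖⁻¹ • gramSchmidt ℝ f ⟨j, hj0⟩ := rfl
  rw [h2, inner_smul_left, h1]
  have h3 := inner_diag_pos f (hγ t) ⟨j + 1, hj⟩
  have h4 : 0 < ⟪f ⟨j + 1, hj⟩, frenet γ ⟨j + 1, hj⟩ t⟫ := h3
  simp only [conj_trivial]
  rw [mul_neg, neg_neg]
  exact mul_pos (inv_pos.2 hne) h4

/-- **The structure equations** `e_i' = κ_i e_{i+1} - κ_{i-1} e_{i-1}` in arc length. -/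
theorem structure_equation (hγ : Nondegenerate γ) (i : Fin n) (t : ℝ) :
    ‖deriv γ.1 t‖⁻¹ • deriv (frenet γ i) t =
      (if h : (i : ℕ) + 1 < n then curvature γ i t • frenet γ ⟨i + 1, h⟩ t else 0) -
      (if 0 < (i : ℕ) then
        curvature γ (i - 1) t • frenet γ ⟨i - 1, by omega⟩ t else 0) := by
  have hn0 : 0 < n := by have := i.2; omega
  have hv : ‖deriv γ.1 t‖ ≠ 0 := norm_ne_zero_iff.2 (deriv_ne_zero hγ hn0 t)
  have hO := orthonormal_frenet hγ t
  have hO' := orthonormal_iff_ite.1 hO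
  have : Nonempty (Fin n) := ⟨i⟩
  let b := basisOfLinearIndependentOfCardEqFinrank hO.linearIndependent (by simp)
  have hb : ∀ j, b j = frenet γ j t := fun j => by
    simp [b]
  refine InnerProductSpace.ext_inner_right_basis (𝕜 := ℝ) b fun j => ?_
  rw [hb, inner_smul_left, inner_sub_left]
  simp only [conj_trivial]
  have e1 : ⟪(if h : (i : ℕ) + 1 < n then curvature γ i t • frenet γ ⟨i + 1, h⟩ t else 0),
      frenet γ j t⟫ = if (i : ℕ) + 1 = (j : ℕ) then
        ‖deriv γ.1 t‖⁻¹ * ⟪deriv (frenet γ i) t, frenet γ j t⟫ else 0 := by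
    by_cases h : (i : ℕ) + 1 < n
    · rw [dif_pos h, inner_smul_left, hO']
      by_cases h2 : (i : ℕ) + 1 = (j : ℕ)
      · rw [if_pos h2]
        have hj : j = ⟨i + 1, h⟩ := Fin.ext h2.symm
        subst hj
        rw [if_pos rfl]
        unfold curvature
        rw [dif_pos h]
        simp only [conj_trivial, mul_one, Fin.eta]
        ring
      · rw [if_neg h2, if_neg, mul_zero]
        intro h3
        exact h2 (congrArg Fin.val h3)
    · rw [dif_neg h, inner_zero_left, if_neg]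
      have := j.2
      omega
  have e2 : ⟪(if 0 < (i : ℕ) then curvature γ (i - 1) t • frenet γ ⟨i - 1, by omega⟩ t else 0),
      frenet γ j t⟫ = if (j : ℕ) + 1 = (i : ℕ) then
        -(‖deriv γ.1 t‖⁻¹ * ⟪deriv (frenet γ i) t, frenet γ j t⟫) else 0 := by
    by_cases h : 0 < (i : ℕ)
    · rw [if_pos h, inner_smul_left, hO']
      by_cases h2 : (j : ℕ) + 1 = (i : ℕ)
      · rw [if_pos h2]
        have hj : j = ⟨i - 1, by omega⟩ := Fin.ext (by simp only; omega)
        have hj' : (⟨(i : ℕ) - 1, by omega⟩ : Fin n) = j := hj.symm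
        rw [if_pos hj']
        have hi : i = ⟨(i : ℕ) - 1 + 1, by omega⟩ := Fin.ext (by simp only; omega)
        unfold curvature
        rw [dif_pos (by omega : (i : ℕ) - 1 + 1 < n), hj', ← hi, anti hγ i j,
          real_inner_comm (frenet γ i t)]
        simp only [conj_trivial, mul_one]
        ring
      · rw [if_neg h2, if_neg, mul_zero]
        intro h3
        apply h2
        have := congrArg Fin.val h3
        simp only at this
        omega
    · rw [if_neg h, inner_zero_left, if_neg]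
      omega
  rw [e1, e2]
  rcases lt_trichotomy ((i : ℕ) + 1) (j : ℕ) with h | h | h
  · rw [if_neg (by omega), if_neg (by omega), anti hγ, frenet_lower_zero hγ h]
    simp
  · rw [if_pos h, if_neg (by omega), sub_zero]
  · rw [if_neg (by omega)]
    rcases lt_trichotomy ((j : ℕ) + 1) (i : ℕ) with h3 | h3 | h3
    · rw [if_neg (by omega), real_inner_comm, frenet_lower_zero hγ h3]
      simp
    · rw [if_pos h3]
      ring
    · have hij : i = j := Fin.ext (by omega)
      rw [if_neg (by omega), ← hij]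
      have h5 := anti hγ i i t
      rw [real_inner_comm (frenet γ i t)] at h5
      have : ⟪deriv (frenet γ i) t, frenet γ i t⟫ = 0 := by
        rw [real_inner_comm]
        linarith
      rw [this]
      simp

end Pool.Agent.Run7.h12.FR
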